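import Pool.Agent.T9h71.SP.Sb

set_option autoImplicit false

namespace Pool.Agent.T9h71.SP

open Pool.Agent.Helper617.RM Pool.Agent.H645R2.R Pool.Agent.T9h90.SP

universe u

theorem size_pos (p : Sep) : 1 ≤ p.size := by
  induction p with
  | one => exact le_rfl
  | node c a b iha ihb => exact le_trans iha (Nat.le_add_right _ _)

section
variable {N : L2Structure.{u}} [IsModelRCA0 N]

theorem bdd (n : ℕ) (x : ℕ → N.M) : ∃ B : N.M, ∀ i, i < n → x i ≤ B := by
  induction n with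
  | zero => exact ⟨0, fun i hi => absurd hi (Nat.not_lt_zero i)⟩
  | succ n ih =>
    obtain ⟨B, hB⟩ := ih
    refine ⟨max B (x n), fun i hi => ?_⟩
    rcases Nat.lt_succ_iff_lt_or_eq.mp hi with h | rfl
    · exact le_trans (hB i h) (le_max_left _ _)
    · exact le_max_right _ _

theorem max_ex {D : Set N.M} {S : N.M → N.M → Prop} (hS : IsLinearOrd N D S) (n : ℕ)
    (x : ℕ → N.M) (hx : ∀ i, i < n + 1 → x i ∈ D) :
    ∃ i, i < n + 1 ∧ ∀ j, j < n + 1 → S (x j) (x i) := by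
  induction n with
  | zero =>
    refine ⟨0, Nat.zero_lt_succ _, fun j hj => ?_⟩
    have : j = 0 := by omega
    subst this
    exact hS.refl _ (hx 0 (by omega))
  | succ n ih =>
    obtain ⟨i, hi, h⟩ := ih (fun i hi => hx i (by omega))
    rcases hS.total (x i) (hx i (by omega)) (x (n + 1)) (hx (n + 1) (by omega)) with h1 | h1
    · refine ⟨n + 1, by omega, fun j hj => ?_⟩
      rcases Nat.lt_succ_iff_lt_or_eq.mp hj with h2 | rfl
      · exact hS.trans _ _ _ (h j h2) h1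
      · exact hS.refl _ (hx _ (by omega))
    · refine ⟨i, by omega, fun j hj => ?_⟩
      rcases Nat.lt_succ_iff_lt_or_eq.mp hj with h2 | rfl
      · exact h j h2
      · exact h1

/-- a strictly descending sequence of the model -/
def Desc (D : Set N.M) (S : N.M → N.M → Prop) : Prop :=
  ∃ g : N.M → N.M, FunIn N g ∧ (∀ i, g i ∈ D) ∧ ∀ i j, i < j → S (g j) (g i) ∧ g i ≠ g j

theorem step (hCP : S_CP.{u}) (hNC : S_NC.{u}) (hCS : S_CS.{u}) (hSQ : S_SQ.{u})
    {f : N.M → N.M → Bool} (hf : DF N f) {D : Set N.M} {S : N.M → N.M → Prop}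
    (hS : IsLinearOrd N D S) (hSd : D0 (fun v : Ctx N => S (v 0) (v 1))) (c : Bool)
    (hfS : ∀ x ∈ D, ∀ y ∈ D, x < y → S x y → f x y = c) (a b : Sep)
    (iha : ∀ H ∈ N.Sets, H ⊆ D → Unb H → ∃ x, Copy f H a x)
    (ihb : ∀ H ∈ N.Sets, H ⊆ D → Unb H → ∃ x, Copy f H b x)
    (hno : ¬ Desc D S) (H : Set N.M) (hH : H ∈ N.Sets) (hHD : H ⊆ D) (hU : Unb H) :
    ∃ x, Copy f H (.node c a b) x := by
  by_contra hcon
  have hNb : ∀ x, Copy f H a x → ¬ Unb (Nc f c H a.size x) := by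
    intro x hx hub
    obtain ⟨y, hy⟩ := ihb _ (hNC N f hf c H hH a.size x) (fun w hw => hHD hw.1) hub
    exact hcon ⟨_, (hCP N.M f H c a b).1 x y hx hy⟩
  let K : N.M → Prop := fun u => ∃ x, Copy f H a x ∧ (∃ i, i < a.size ∧ x i = u) ∧
    ∀ j, j < a.size → S (x j) u
  have hK : S1 (fun v : Ctx N => K (v 0)) := by
    have h1 := (hCS N f hf a (fun _ y => y ∈ H) (fun u y => S y u)
      (D0.mem (Tm.var 1) hH) (hSd.rel (Tm.var 1) (Tm.var 0))).2
    exact h1
  have hKof : ∀ x, Copy f H a x → ∃ i, i < a.size ∧ K (x i) := by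
    intro x hx
    obtain ⟨n, hn⟩ : ∃ n, a.size = n + 1 := ⟨a.size - 1, by have := size_pos a; omega⟩
    obtain ⟨i, hi, h⟩ := max_ex hS n x (fun i hi => hHD (hx.1 i (by omega)))
    exact ⟨i, by omega, x, hx, ⟨i, by omega, rfl⟩, fun j hj => h j (by omega)⟩
  have hKne : ∃ u, K u := by
    obtain ⟨x, hx⟩ := iha H hH hHD hU
    obtain ⟨i, -, hi⟩ := hKof x hx
    exact ⟨_, hi⟩
  have hKstep : ∀ u, K u → ∃ u', K u' ∧ (S u' u ∧ u' ≠ u) := by
    rintro u ⟨x, hx, ⟨i, hi, rfl⟩, hmax⟩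
    have hb := hNb x hx
    unfold Unb at hb
    push Not at hb
    obtain ⟨B, hB⟩ := hb
    obtain ⟨B', hB'⟩ := bdd a.size x
    have hxi : x i ∈ H := hx.1 i hi
    let H2 : Set N.M := {y | y ∈ H ∧ (S y (x i) ∧ ¬ y = x i)}
    have hH2 : H2 ∈ N.Sets := by
      refine comp_D0 (P := fun y => y ∈ H ∧ (S y (x i) ∧ ¬ y = x i)) ?_
      exact (D0.mem (Tm.var 0) hH).and
        ((hSd.rel (Tm.var 0) (Tm.const (x i))).and (D0.eq (Tm.var 0) (Tm.const (x i))).not)
    have hU2 : Unb H2 := by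
      intro B2
      obtain ⟨y, hy, hyB⟩ := hU (max B2 (max B B'))
      have h1 : B2 < y := lt_of_le_of_lt (le_max_left _ _) hyB
      have h2 : B < y := lt_of_le_of_lt (le_trans (le_max_left _ _) (le_max_right _ _)) hyB
      have h3 : B' < y := lt_of_le_of_lt (le_trans (le_max_right _ _) (le_max_right _ _)) hyB
      have h4 : ¬ S (x i) y := by
        intro hs
        have h5 : y ∈ Nc f c H a.size x := by
          refine ⟨hy, fun j hj => ?_⟩
          have h6 : x j < y := lt_of_le_of_lt (hB' j hj) h3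
          exact ⟨h6, hfS _ (hHD (hx.1 j hj)) _ (hHD hy) h6 (hS.trans _ _ _ (hmax j hj) hs)⟩
        exact absurd h2 (not_lt.mpr (hB y h5))
      have h5 : S y (x i) := by
        rcases hS.total y (hHD hy) (x i) (hHD hxi) with h | h
        · exact h
        · exact absurd h h4
      refine ⟨y, ⟨hy, h5, ?_⟩, h1⟩
      rintro rfl
      exact h4 (hS.refl _ (hHD hxi))
    obtain ⟨x', hx'⟩ := iha H2 hH2 (fun w hw => hHD hw.1) hU2
    have hx'H : Copy f H a x' := ⟨fun k hk => (hx'.1 k hk).1, hx'.2⟩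
    obtain ⟨i', hi', hK'⟩ := hKof x' hx'H
    exact ⟨x' i', hK', (hx'.1 i' hi').2⟩
  obtain ⟨g, hg, hg2⟩ := hSQ N K (fun u u' => S u' u ∧ ¬ u' = u) hK
    ((hSd.rel (Tm.var 1) (Tm.var 0)).and (D0.eq (Tm.var 1) (Tm.var 0)).not).S1 hKne hKstep
  apply hno
  refine ⟨g, codeRel_mem_D0 hg, ?_, ?_⟩
  · intro i
    obtain ⟨x, hx, ⟨k, hk, hxk⟩, -⟩ := (hg2 i).1
    rw [← hxk]
    exact hHD (hx.1 k hk)
  · have hP : D1 (fun v : Ctx N => ∀ i, i < v 0 → (S (g (v 0)) (g i) ∧ ¬ g i = g (v 0))) := by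
      refine D1.ball (P := fun v i => S (g (v 0)) (g i) ∧ ¬ g i = g (v 0)) (DG.var 0) ?_
      refine D1.and ?_ ?_
      · exact D1.app2 (R := fun a b => S a b) (D1.of hSd)
          (DG.app hg (g := fun v => Helper617.RM.tail v 0) (DG.var 1)) (DG.app hg (DG.var 0))
      · exact (D1.eq (DG.app hg (DG.var 0))
          (DG.app hg (g := fun v => Helper617.RM.tail v 0) (DG.var 1))).not
    have hind : ∀ j : N.M, ∀ i, i < j → (S (g j) (g i) ∧ ¬ g i = g j) := by
      refine ind_S1 (P := fun j => ∀ i, i < j → (S (g j) (g i) ∧ ¬ g i = g j)) hP.1 ?_ ?_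
      · intro i hi
        exact absurd hi (not_lt.mpr (zero_le' i))
      · intro j ih i hi
        obtain ⟨-, h1, h2⟩ := hg2 j
        rcases (le_of_lt1 hi).lt_or_eq with h | rfl
        · obtain ⟨h3, h4⟩ := ih i h
          refine ⟨hS.trans _ _ _ h1 h3, fun h5 => ?_⟩
          rw [h5] at h3
          exact h2 (hS.antisymm _ _ h1 h3)
        · exact ⟨h1, fun h5 => h2 h5.symm⟩
    intro i j hij
    exact hind j i hij

end

theorem ad : S_CP.{u} → S_NC.{u} → S_CS.{u} → S_SQ.{u} → S_TR.{u} → S_AD.{u} := by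
  classical
  intro hCP hNC hCS hSQ hTR N _ p hp D hD R hR hlin hfin
  by_contra hcon
  have hU : Unb D := by
    intro b
    obtain ⟨x, hx, hbx⟩ := not_isFin_iff.1 hfin (b + 1)
    exact ⟨x, hx, lt_of_lt_of_le (lt1 b) hbx⟩
  have hRd : D0 (fun v : Ctx N => R (v 0) (v 1)) := D0.of_codeRel hR
  have hf : DF N (fun x y => decide (R x y)) := hRd.congr fun v => by simp
  have hno1 : ¬ Desc D R := by
    rintro ⟨g, h1, h2, h3⟩
    exact hcon ⟨g, h1, h2, Or.inr h3⟩
  have hno2 : ¬ Desc D (fun x y => R y x) := by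
    rintro ⟨g, h1, h2, h3⟩
    exact hcon ⟨g, h1, h2, Or.inl h3⟩
  have hlin2 : IsLinearOrd N D (fun x y => R y x) :=
    { dom := fun x y h => ⟨(hlin.dom y x h).2, (hlin.dom y x h).1⟩
      refl := hlin.refl
      antisymm := fun x y h1 h2 => hlin.antisymm x y h2 h1
      trans := fun x y z h1 h2 => hlin.trans z y x h2 h1
      total := fun x hx y hy => hlin.total y hy x hx }
  have claim : ∀ q : Sep, ∀ H ∈ N.Sets, H ⊆ D → Unb H →
      ∃ x, Copy (fun x y => decide (R x y)) H q x := by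
    intro q
    induction q with
    | one =>
      intro H hH hHD hHU
      obtain ⟨y, hy, -⟩ := hHU 0
      refine ⟨fun _ => y, fun _ _ => hy, fun i j hij hj => ?_⟩
      change j < 1 at hj
      omega
    | node c a b iha ihb =>
      intro H hH hHD hHU
      cases c with
      | true =>
        exact step hCP hNC hCS hSQ hf hlin hRd true (fun x _ y _ _ h => by simpa using h) a b
          iha ihb hno1 H hH hHD hHU
      | false =>
        refine step hCP hNC hCS hSQ hf hlin2 (hRd.rel (Tm.var 1) (Tm.var 0)) false ?_ a b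
          iha ihb hno2 H hH hHD hHU
        intro x _ y _ hxy h
        rw [decide_eq_false_iff_not]
        intro h2
        exact absurd (hlin.antisymm x y h2 h) (ne_of_lt hxy)
  obtain ⟨H', h1, h2, h3, h4⟩ := hTR N p hp _ hf D hD hU
  exact h4 (claim p H' h1 h2 h3)


end Pool.Agent.T9h71.SP
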