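import Pool.Agent.T9h90.SP.Spec

set_option autoImplicit false

namespace Pool.Agent.T9h71.SP

open Pool.Agent.Helper617.RM Pool.Agent.H645R2.R Pool.Agent.T9h90.SP

universe u

theorem univ_mem (N : L2Structure.{u}) [IsModelRCA0 N] : (Set.univ : Set N.M) ∈ N.Sets :=
  comp_D0 (P := fun _ => True) D0.true

/-- an increasing function of the model with values in an unbounded Sigma_1 set -/
theorem enum (hSQ : S_SQ.{u}) (N : L2Structure.{u}) [IsModelRCA0 N] (K : N.M → Prop)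
    (hK : S1 (fun v => K (v 0))) (hU : Unb {x | K x}) :
    ∃ g : N.M → N.M, D0 (fun v => v 1 = g (v 0)) ∧ ∀ n, K (g n) ∧ g n < g (n + 1) := by
  refine hSQ N K (fun x y => x < y) hK (D0.lt (Tm.var 0) (Tm.var 1)).S1 ?_ ?_
  · obtain ⟨y, hy, -⟩ := hU 0
    exact ⟨y, hy⟩
  · intro x _
    obtain ⟨y, hy, hxy⟩ := hU x
    exact ⟨y, hy, hxy⟩

theorem sb : S_SQ.{u} → S_RG.{u} → S_SB.{u} := by
  intro hSQ hRG N _ K hK hU
  obtain ⟨g, hg, hg2⟩ := enum hSQ N K hK hU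
  obtain ⟨-, -, h3⟩ := hRG N g hg (fun n => (hg2 n).2)
  obtain ⟨h4, h5⟩ := h3 Set.univ (univ_mem N)
  refine ⟨_, h4, h5 ?_, ?_⟩
  · intro b
    exact ⟨b + 1, Set.mem_univ _, lt1 b⟩
  · rintro x ⟨i, -, rfl⟩
    exact (hg2 i).1


end Pool.Agent.T9h71.SP
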