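import Pool.Agent.T9h71.SP.Sb

set_option autoImplicit false

namespace Pool.Agent.T9h71.SP

open Pool.Agent.Helper617.RM Pool.Agent.H645R2.R Pool.Agent.T9h90.SP

universe u

theorem tr : S_SQ.{u} → S_RG.{u} → S_TR.{u} := by
  intro hSQ hRG N _ p hp f hf H hH hU
  obtain ⟨e, he, he2⟩ := enum hSQ N (fun x => x ∈ H) (D0.mem (Tm.var 0) hH).S1 hU
  obtain ⟨hmono, -, h3⟩ := hRG N e he (fun n => (he2 n).2)
  have hD : D1 (fun v : Ctx N => f (e (v 0)) (e (v 1)) = true) :=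
    D1.app2 (R := fun a b => f a b = true) (D1.of hf) (DG.app he (DG.var 0))
      (DG.app he (DG.var 1))
  have hCol : ColIn N (fun x y => f (e x) (e y)) :=
    codeRel_mem (R := fun x y => f (e x) (e y) = true) hD.1 hD.2
  obtain ⟨I, hI, hfin, hno⟩ := hp _ hCol
  have hIU : Unb I := by
    intro b
    obtain ⟨x, hx, hbx⟩ := not_isFin_iff.1 hfin (b + 1)
    exact ⟨x, hx, lt_of_lt_of_le (lt1 b) hbx⟩
  obtain ⟨h4, h5⟩ := h3 I hI
  refine ⟨_, h4, ?_, h5 hIU, ?_⟩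
  · rintro y ⟨i, -, rfl⟩
    exact (he2 i).1
  · rintro ⟨x, hx1, hx2⟩
    apply hno
    have hex : ∀ i, ∃ w : N.M, i < p.size → w ∈ I ∧ x i = e w := by
      intro i
      by_cases hi : i < p.size
      · obtain ⟨w, hw, hxw⟩ := hx1 i hi
        exact ⟨w, fun _ => ⟨hw, hxw⟩⟩
      · exact ⟨0, fun h => absurd h hi⟩
    choose w hw using hex
    refine ⟨w, fun i hi => (hw i hi).1, ?_⟩
    intro i j hij hj
    have hi : i < p.size := lt_trans hij hj
    obtain ⟨h6, h7⟩ := hx2 i j hij hj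
    rw [(hw i hi).2, (hw j hj).2] at h6 h7
    refine ⟨?_, h7⟩
    by_contra hcon
    rw [not_lt] at hcon
    rcases hcon.lt_or_eq with h | h
    · exact absurd (hmono _ _ h) (not_lt.mpr h6.le)
    · rw [h] at h6
      exact lt_irrefl _ h6


end Pool.Agent.T9h71.SP
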